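import Pool.Agent.H49.SW.Stm

set_option autoImplicit false

/-!
# R6: polynomials of degree at most one

If `q` has degree at most one, all its values at points with coordinates at least one are
nonnegative and its constant term is nonnegative, then all its coefficients are nonnegative.
-/

namespace Pool.Agent.H89.SW

open Finset MvPolynomial
open Pool.Agent.H49.SW

/-- An exponent of degree zero or one, or of degree at least two. -/
theorem exp_cases {α : Type} [Fintype α] [DecidableEq α] (m : α →₀ ℕ) :
    m = 0 ∨ (∃ y, m = Finsupp.single y 1) ∨ 2 ≤ ∑ i ∈ m.support, m i := by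
  by_cases h0 : m = 0
  · exact Or.inl h0
  · right
    obtain ⟨y, hy⟩ := Finsupp.support_nonempty_iff.mpr h0
    have hy1 : m y ≠ 0 := Finsupp.mem_support_iff.mp hy
    by_cases h2 : 2 ≤ ∑ i ∈ m.support, m i
    · exact Or.inr h2
    · left
      refine ⟨y, ?_⟩
      ext z
      by_cases hz : z = y
      · subst hz
        have h3 : m z ≤ ∑ i ∈ m.support, m i :=
          Finset.single_le_sum (f := fun i => m i) (fun i _ => Nat.zero_le _) hy
        rw [Finsupp.single_eq_same]
        omega
      · rw [Finsupp.single_eq_of_ne hz]
        by_contra hz0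
        have hzs : z ∈ m.support := Finsupp.mem_support_iff.mpr hz0
        have h4 : m z + m y ≤ ∑ i ∈ m.support, m i := by
          have h5 : ∑ i ∈ ({z, y} : Finset α), m i ≤ ∑ i ∈ m.support, m i := by
            refine Finset.sum_le_sum_of_subset ?_
            intro i hi
            simp only [Finset.mem_insert, Finset.mem_singleton] at hi
            rcases hi with hi | hi
            · subst hi; exact hzs
            · subst hi; exact hy
          rwa [Finset.sum_pair hz] at h5
        omega

/-- The expansion of a polynomial of degree at most one. -/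
theorem expand {α : Type} [Fintype α] [DecidableEq α] (q : MvPolynomial α ℤ)
    (hq : q.totalDegree ≤ 1) :
    q = C (constantCoeff q) + ∑ x : α, C (coeff (Finsupp.single x 1) q) * X x := by
  ext m
  rw [coeff_add, coeff_C, coeff_sum]
  simp only [coeff_C_mul, coeff_X]
  rcases exp_cases m with h | ⟨y, h⟩ | h
  · subst h
    rw [if_pos rfl]
    have h1 : ∀ x : α, ¬ (Finsupp.single x 1 = (0 : α →₀ ℕ)) := by
      intro x hx
      have := DFunLike.congr_fun hx x
      simp at this
    simp only [h1, if_false, mul_zero, Finset.sum_const_zero, add_zero]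
    rfl
  · subst h
    have h1 : ¬ ((0 : α →₀ ℕ) = Finsupp.single y 1) := by
      intro hx
      have := DFunLike.congr_fun hx y
      simp at this
    rw [if_neg h1, zero_add, Finset.sum_eq_single y]
    · rw [if_pos rfl, mul_one]
    · intro x _ hx
      have h2 : ¬ (Finsupp.single x 1 = (Finsupp.single y 1 : α →₀ ℕ)) := by
        intro h3
        have h4 := DFunLike.congr_fun h3 x
        rw [Finsupp.single_eq_same, Finsupp.single_eq_of_ne hx] at h4
        exact one_ne_zero h4
      rw [if_neg h2, mul_zero]
    · intro h2
      exact absurd (Finset.mem_univ y) h2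
  · have h0 : coeff m q = 0 := coeff_eq_zero_of_totalDegree_lt (by omega)
    rw [h0]
    have h1 : ¬ ((0 : α →₀ ℕ) = m) := by
      intro hx
      subst hx
      simp at h
    have h2 : ∀ x : α, ¬ (Finsupp.single x 1 = m) := by
      intro x hx
      subst hx
      rw [Finsupp.support_single x one_ne_zero, Finset.sum_singleton,
        Finsupp.single_eq_same] at h
      omega
    simp only [h1, h2, if_false, mul_zero, Finset.sum_const_zero, add_zero]

/-- The coefficient of a variable is nonnegative. -/
theorem coeff_single_nonneg {α : Type} [Fintype α] [DecidableEq α] (q : MvPolynomial α ℤ)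
    (hv : ∀ t : α → ℕ, (∀ x, 1 ≤ t x) → 0 ≤ evt t q) (hq : q.totalDegree ≤ 1) (y : α) :
    0 ≤ coeff (Finsupp.single y 1) q := by
  by_contra hneg
  have hneg' : coeff (Finsupp.single y 1) q ≤ -1 := by omega
  set c0 := constantCoeff q with hc0
  set c : α → ℤ := fun x => coeff (Finsupp.single x 1) q with hc
  have hval : ∀ t : α → ℕ, evt t q = c0 + ∑ x : α, c x * (t x : ℤ) := by
    intro t
    unfold evt
    rw [expand q hq]
    simp only [map_add, map_sum, map_mul, eval_C, eval_X]
    rfl
  set r : ℤ := c0 + ∑ x ∈ Finset.univ.erase y, c x with hr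
  have hM := hv (fun x => if x = y then r.natAbs + 1 else 1) (by
    intro x
    by_cases hx : x = y
    · simp [hx]
    · simp [hx])
  rw [hval, ← Finset.add_sum_erase Finset.univ _ (Finset.mem_univ y)] at hM
  have h1 : ∑ x ∈ Finset.univ.erase y, c x * (((if x = y then r.natAbs + 1 else 1 : ℕ)) : ℤ)
      = ∑ x ∈ Finset.univ.erase y, c x := by
    refine Finset.sum_congr rfl ?_
    intro x hx
    rw [if_neg (Finset.ne_of_mem_erase hx)]
    simp
  rw [h1, if_pos rfl] at hM
  have h2 : c y * (((r.natAbs + 1 : ℕ)) : ℤ) ≤ -1 * (((r.natAbs + 1 : ℕ)) : ℤ) :=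
    mul_le_mul_of_nonneg_right hneg' (by positivity)
  have h3 : (r : ℤ) ≤ (r.natAbs : ℤ) := by omega
  push_cast at hM h2 h3
  have h4 : c0 + (c y * (|r| + 1) + ∑ x ∈ Finset.univ.erase y, c x)
      = r + c y * (|r| + 1) := by
    rw [hr]; ring
  rw [h4] at hM
  have h5 : r ≤ |r| := le_abs_self r
  linarith

/-- R6. -/
theorem slin : SLin := by
  intro α _ _ q hv h0 hq m
  rcases exp_cases m with h | ⟨y, h⟩ | h
  · subst h
    exact h0
  · subst h
    exact coeff_single_nonneg q hv hq y
  · have h1 : coeff m q = 0 := coeff_eq_zero_of_totalDegree_lt (by omega)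
    rw [h1]

end Pool.Agent.H89.SW
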